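import Pool.Agent.X289.OD.Main

/-!
# Galois representations from extensions of degree prime to the dimension

Let `K` be a number field, `θ` an eigenclass as in the problem and `Q ℘ = X² - a_℘ X + b_℘ N℘` for the primes `℘`
outside the finite set `S` of the primes which divide `𝔫 l`; let `δ` be the `l`-adic character of the absolute Galois
group of `K` with `δ (Frob_℘) = b_℘ N℘` (it exists by class field theory). For an extension `F` of `K` let `ρ_F` be
the two-dimensional `l`-adic representation of the absolute Galois group of `F` which should belong to the base change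
of `θ` to `F`. We show that `ρ` exists over `K` if for each prime `℘` outside `S` there is one extension `F` of `K` of
odd degree, which need not be Galois, such that `ρ_F` exists and `F` has a prime over `℘` with local degree one.
The usual patching lemmas (Blasius and Rogawski, Sorensen) and also `SevenQuadraticFields` need cyclic or
other special families of extensions, in which pairs (or larger tuples) of elements of the Galois group fix a
common field. Here nothing of this kind is needed: each element of the Galois group is treated alone. One extension `F`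
of odd degree already gives `ρ` on `G_K` with `ρ | G_F = ρ_F` and determinant `δ`.

The theorem holds for representations of any dimension `n`, extensions of degree prime to `n` and over algebraically
closed topological fields of any characteristic. The `ρ_F` are supposed to be absolutely irreducible on the group of
a Galois extension `M` of `K` which contains `F` (and the first field of the family); for `l`-adic `ρ_F` this holds
with any `M` if one of the `ρ_F` is irreducible over all finite extensions.

Idea of the proof: the pairs `(g, A)` such that `A` has determinant `δ (g)` and acts by conjugation on `ρ_F (G_M)` as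
`g` does form an extension of `G_K` by the group `μ_n` of scalars. Over `G_F` it is split by `ρ_F`. The
transfer of the resulting homomorphism to `μ_n` is a homomorphism on the whole group which on `μ_n` is the
power with exponent `[F : K]`, which is invertible. So the extension splits. Chebotarev's theorem shows that the
splitting can be chosen to agree with `ρ_F` on `G_F`. Two fields `F` and `F'` give the same `ρ` since the
character by which they could differ has order dividing `n`, and its kernel has index dividing `[F : K] [F' : K]`.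
-/

set_option autoImplicit false

namespace Pool.Agent.Results.MP_976e2b_nt.OddDegreeFields

open NumberField IsDedekindDomain Matrix
open Pool.Agent.W401.Cheb (GK IsFrob IsInert)

variable {K : Type} [Field K] [NumberField K] {Ω : Type} [Field Ω] [TopologicalSpace Ω] {n : ℕ}

/-- The representation `ρ` of the subgroup `H` of the absolute Galois group of `K` is continuous and corresponds to the
polynomials `Q v` at the finite places `v` of `K` outside `S`: elements of `H` which are inertia elements at `v` act
trivially, and elements of `H` which are geometric Frobenius elements at `v` have the characteristic polynomial `Q v`.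
If `H` is the group of the field `F` then it concerns the places of `F` of degree one over `K`. -/
def CorrespondsOn (H : Subgroup (GK K)) (ρ : H →* GL (Fin n) Ω)
    (S : Set (HeightOneSpectrum (𝓞 K))) (Q : HeightOneSpectrum (𝓞 K) → Polynomial Ω) : Prop :=
  Continuous ρ ∧ ∀ v, v ∉ S → (∀ τ : H, IsInert v (τ : GK K) → ρ τ = 1) ∧
    ∀ σ : H, IsFrob v ((σ : GK K)⁻¹) → (ρ σ : Matrix (Fin n) (Fin n) Ω).charpoly = Q v

/-- The character `δ` is continuous and its value at the geometric Frobenius elements at `v` outside `S` is the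
determinant which belongs to the characteristic polynomial `Q v`. -/
def IsDeterminant (n : ℕ) (δ : GK K →* Ωˣ) (S : Set (HeightOneSpectrum (𝓞 K)))
    (Q : HeightOneSpectrum (𝓞 K) → Polynomial Ω) : Prop :=
  Continuous δ ∧ ∀ v, v ∉ S → ∀ σ, IsFrob v σ → (δ σ⁻¹ : Ω) = (-1) ^ n * (Q v).coeff 0

/-- `ρ` is absolutely irreducible on the group of `M`: the matrices `ρ x`, `x` in the group of `M`, span the algebra of
all matrices. -/
def AbsIrreducibleOver {H : Subgroup (GK K)} (ρ : H →* GL (Fin n) Ω)
    (M : IntermediateField K (AlgebraicClosure K)) : Prop :=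
  Submodule.span Ω ((fun x : H => (ρ x : Matrix (Fin n) (Fin n) Ω)) '' {x | (x : GK K) ∈ M.fixingSubgroup}) = ⊤

/-- some conjugate of `g` fixes one of the fields `F i` -/
def Covered {ι : Type} (F : ι → IntermediateField K (AlgebraicClosure K)) (g : GK K) : Prop :=
  ∃ i, ∃ c : GK K, c⁻¹ * g * c ∈ (F i).fixingSubgroup

/-- The representation `R` is right at all inertia and Frobenius elements outside `S` that have a conjugate which fixes
one of the fields `F i`. -/
def RightAtCovered {ι : Type} (F : ι → IntermediateField K (AlgebraicClosure K)) (R : GK K →* GL (Fin n) Ω)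
    (S : Set (HeightOneSpectrum (𝓞 K))) (Q : HeightOneSpectrum (𝓞 K) → Polynomial Ω) : Prop :=
  ∀ v, v ∉ S → (∀ τ, IsInert v τ → Covered F τ → R τ = 1) ∧
    ∀ σ, IsFrob v σ → Covered F σ⁻¹ → (R σ⁻¹ : Matrix (Fin n) (Fin n) Ω).charpoly = Q v

/-- `R` and `R'` are isomorphic -/
def Iso {Γ : Type} [Group Γ] (R R' : Γ →* GL (Fin n) Ω) : Prop :=
  ∃ A : GL (Fin n) Ω, ∀ g, R' g = A * R g * A⁻¹

/-- **Galois representations from extensions of degree prime to the dimension.** -/
theorem result (K : Type) [Field K] [NumberField K] (Ω : Type) [Field Ω] [IsAlgClosed Ω] [TopologicalSpace Ω]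
    [IsTopologicalRing Ω] [T2Space Ω] (n : ℕ) (hn : 0 < n) (S : Set (HeightOneSpectrum (𝓞 K))) (hS : S.Finite)
    (Q : HeightOneSpectrum (𝓞 K) → Polynomial Ω) (δ : GK K →* Ωˣ) (hδ : IsDeterminant n δ S Q)
    (ι : Type) (F : ι → IntermediateField K (AlgebraicClosure K)) (hfin : ∀ i, FiniteDimensional K (F i))
    (hcop : ∀ i, (Module.finrank K (F i)).Coprime n) (ρ : ∀ i, (F i).fixingSubgroup →* GL (Fin n) Ω)
    (hρ : ∀ i, CorrespondsOn (F i).fixingSubgroup (ρ i) S Q) (i₀ : ι)
    (hirr : ∀ i, ∃ M : IntermediateField K (AlgebraicClosure K), FiniteDimensional K M ∧ IsGalois K M ∧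
      F i ≤ M ∧ F i₀ ≤ M ∧ AbsIrreducibleOver (ρ i) M) :
    ∃ R : GK K →* GL (Fin n) Ω, Continuous R ∧ (∀ g, GeneralLinearGroup.det (R g) = δ g) ∧
      (∀ i, Iso (ρ i) (R.comp (F i).fixingSubgroup.subtype)) ∧ RightAtCovered F R S Q ∧
      ∀ R' : GK K →* GL (Fin n) Ω, (∀ g, GeneralLinearGroup.det (R' g) = δ g) →
        (∃ i, ∀ x : (F i).fixingSubgroup, (R' x : Matrix (Fin n) (Fin n) Ω).trace =
          (ρ i x : Matrix (Fin n) (Fin n) Ω).trace) → Iso R R' := by
  choose M hM1 hM2 hM3 hM4 hM5 using hirr
  have hle : ∀ i, (M i).fixingSubgroup ≤ (F i).fixingSubgroup := fun i =>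
    IntermediateField.fixingSubgroup_antitone (hM3 i)
  have hle₀ : ∀ i, (M i).fixingSubgroup ≤ (F i₀).fixingSubgroup := fun i =>
    IntermediateField.fixingSubgroup_antitone (hM4 i)
  have hnorm : ∀ i, (M i).fixingSubgroup.Normal := fun i => by
    have := hM2 i
    exact (InfiniteGalois.normal_iff_isGalois (M i)).2 inferInstance
  have hsp : ∀ i, Pool.Agent.X289.OD.Spans ((ρ i).comp (Subgroup.inclusion (hle i))) := by
    intro i
    unfold Pool.Agent.X289.OD.Spans
    rw [← hM5 i]
    congr 1
    ext a
    constructor
    · rintro ⟨u, rfl⟩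
      exact ⟨Subgroup.inclusion (hle i) u, u.2, rfl⟩
    · rintro ⟨x, hx, rfl⟩
      exact ⟨⟨x.1, hx⟩, rfl⟩
  obtain ⟨R, h1, h2, h3, h4⟩ := Pool.Agent.X289.OD.nf_coprime hn hS δ hδ.1 hδ.2 i₀ (fun i => (F i).fixingSubgroup)
    (fun i => by
      have := hfin i
      exact IntermediateField.fixingSubgroup_isOpen (F i))
    (fun i => by
      rw [← IntermediateField.finrank_eq_fixingSubgroup_index]
      exact hcop i) ρ (fun i => (hρ i).1) (fun i => (hρ i).2) (fun i => (M i).fixingSubgroup) hnorm hle hle₀ hsp
  refine ⟨R, h1, h2, fun i => ?_, fun v hv => ⟨?_, ?_⟩, h4⟩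
  · obtain ⟨A, hA⟩ := h3 i
    exact ⟨A, hA⟩
  · rintro τ hτ ⟨i, c, hc⟩
    obtain ⟨A, hA⟩ := h3 i
    have h5 : R (c⁻¹ * τ * c) = 1 := by
      rw [show R (c⁻¹ * τ * c) = A * ρ i ⟨_, hc⟩ * A⁻¹ from hA ⟨_, hc⟩,
        ((hρ i).2 v hv).1 ⟨_, hc⟩ (Pool.Agent.X289.TF.isInert_conj' hτ c), mul_one, mul_inv_cancel]
    rw [map_mul, map_mul, map_inv, mul_assoc, inv_mul_eq_one] at h5
    exact (mul_eq_right.1 h5.symm)
  · rintro σ hσ ⟨i, c, hc⟩
    obtain ⟨A, hA⟩ := h3 i
    have h5 : (R (c⁻¹ * σ⁻¹ * c) : Matrix (Fin n) (Fin n) Ω).charpoly = Q v := by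
      rw [show R (c⁻¹ * σ⁻¹ * c) = A * ρ i ⟨_, hc⟩ * A⁻¹ from hA ⟨_, hc⟩, Pool.Agent.X289.TF.charpoly_conj]
      refine ((hρ i).2 v hv).2 ⟨_, hc⟩ ?_
      have h6 : (c⁻¹ * σ⁻¹ * c)⁻¹ = c⁻¹ * σ * c := by group
      show IsFrob v (c⁻¹ * σ⁻¹ * c)⁻¹
      rw [h6]
      exact Pool.Agent.X289.TF.isFrob_conj' hσ c
    rw [← h5, Pool.Agent.X289.TF.charpoly_conj']

end Pool.Agent.Results.MP_976e2b_nt.OddDegreeFields
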