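import Pool.Agent.X289.TF.Pairs

/-!
# Galois representations for GL(2) from seven quadratic base changes

Let `K` be a number field, `θ` an eigenclass as in the problem and `Q ℘` the polynomial `X² - a_℘ X + b_℘ N℘` for the
primes `℘` outside the finite set `S` of the primes which divide `𝔫 l`. For an extension `F` of `K` let `ρ_F` be the
two-dimensional `l`-adic representation of the absolute Galois group of `F` which should belong to the base change of
`θ` to `F`. In the patching lemma of Blasius and Rogawski, which descends such representations to `K`, infinitely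
many quadratic extensions `F` are needed. Here seven quadratic extensions suffice, and they can be chosen in
advance, independently of `θ` and `l`.

1. Let `𝓕` be a set of finite extensions of `K` such that any two elements of the absolute Galois group of `K` have a
common fixed field `F` in `𝓕`. If `ρ_F` exists for all `F` in `𝓕`, over an algebraically closed topological field `Ω`
of characteristic not two, then there is a semisimple representation `ρ` of the absolute Galois group of `K` over
`Ω` which is unramified with the Frobenius polynomials `Q ℘` at all `℘` outside `S`. On the group of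
`F` it has the traces and determinants of `ρ_F`; so local conditions at `l` which can be checked on open subgroups
(weight two) carry over from the `ρ_F` to `ρ`, and so does irreducibility.
The representations `ρ_F` need not be semisimple, and only the primes of `F` of degree one over `K` are used.

2. This applies to the seven fields `K(√a), K(√b), K(√c), K(√(ab)), K(√(ac)), K(√(bc)), K(√(abc))` for
any `a, b, c` in `K`.

The number two of elements is the smallest possible: the three quadratic fields in a biquadratic field `L` do not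
suffice (take `Q v = (X - 1)²` if `v` splits in `L` and `Q v = X² - 1` otherwise, then `ρ_F = 1 + χ` with the quadratic
character `χ` of `L/F`, but there is no `ρ`). For `GL_3` the seven quadratic fields do not suffice (take for `ρ_F` the
sum of the three nontrivial characters of `Gal(L/F)`, `L = K(√a, √b, √c)`).

Idea of the proof: by Chebotarev's theorem the traces and the determinants of the `ρ_F` define functions `T` and `D`
on the absolute Galois group of `K`, and `T(gh) + D(h) T(gh⁻¹) = T(g) T(h)` as `g` and `h` fix a common field.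
All other identities between the values of a two-dimensional trace follow from this one which concerns two
elements only. So `(T, D)` is a pseudo-representation and comes from a representation.
-/

set_option autoImplicit false

namespace Pool.Agent.Results.MP_976e2b_nt.SevenQuadraticFields

open NumberField IsDedekindDomain Matrix
open Pool.Agent.W401.Cheb (GK IsFrob IsInert)

/-- `W` is stable under `ρ` -/
def Stable {Γ k : Type} [Group Γ] [Field k] {n : ℕ} (ρ : Γ →* GL (Fin n) k) (W : Submodule k (Fin n → k)) : Prop :=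
  ∀ g, ∀ w ∈ W, (ρ g : Matrix (Fin n) (Fin n) k) *ᵥ w ∈ W

/-- `ρ` is semisimple: every stable subspace has a stable complement -/
def Semisimple {Γ k : Type} [Group Γ] [Field k] {n : ℕ} (ρ : Γ →* GL (Fin n) k) : Prop :=
  ∀ W, Stable ρ W → ∃ W', Stable ρ W' ∧ IsCompl W W'

variable {K : Type} [Field K] [NumberField K]

/-- The representation `ρ` of the subgroup `H` of the absolute Galois group of `K` is continuous and corresponds to the
polynomials `Q v` at the finite places `v` of `K` outside `S`: elements of `H` which are inertia elements at `v` act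
trivially, and elements of `H` which are geometric Frobenius elements at `v` have the characteristic polynomial `Q v`.
If `H` is the group of the field `F` then it concerns the places of `F` of degree one over `K`. -/
def CorrespondsOn {Ω : Type} [Field Ω] [TopologicalSpace Ω] (H : Subgroup (GK K)) (ρ : H →* GL (Fin 2) Ω)
    (S : Set (HeightOneSpectrum (𝓞 K))) (Q : HeightOneSpectrum (𝓞 K) → Polynomial Ω) : Prop :=
  Continuous ρ ∧ ∀ v, v ∉ S → (∀ τ : H, IsInert v (τ : GK K) → ρ τ = 1) ∧
    ∀ σ : H, IsFrob v ((σ : GK K)⁻¹) → (ρ σ : Matrix (Fin 2) (Fin 2) Ω).charpoly = Q v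

/-- the representation `ρ` of the absolute Galois group of `K` is continuous and semisimple, at the places `v` outside
`S` it is unramified and the geometric Frobenius elements have the characteristic polynomial `Q v` -/
def BelongsTo {Ω : Type} [Field Ω] [TopologicalSpace Ω] (ρ : GK K →* GL (Fin 2) Ω)
    (S : Set (HeightOneSpectrum (𝓞 K))) (Q : HeightOneSpectrum (𝓞 K) → Polynomial Ω) : Prop :=
  Continuous ρ ∧ Semisimple ρ ∧ ∀ v, v ∉ S → (∀ τ, IsInert v τ → ρ τ = 1) ∧
    ∀ σ, IsFrob v σ → (ρ σ⁻¹ : Matrix (Fin 2) (Fin 2) Ω).charpoly = Q v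

/-- the restriction of `ρ` to `H` has the traces and the determinants of `ρ'` -/
def Restricts {Ω : Type} [Field Ω] (ρ : GK K →* GL (Fin 2) Ω) (H : Subgroup (GK K)) (ρ' : H →* GL (Fin 2) Ω) : Prop :=
  ∀ x : H, (ρ x : Matrix (Fin 2) (Fin 2) Ω).trace = (ρ' x : Matrix (Fin 2) (Fin 2) Ω).trace ∧
    (ρ x : Matrix (Fin 2) (Fin 2) Ω).det = (ρ' x : Matrix (Fin 2) (Fin 2) Ω).det

theorem part1 {Ω : Type} [Field Ω] [IsAlgClosed Ω] [TopologicalSpace Ω] [IsTopologicalRing Ω] [T2Space Ω]
    (h2 : (2 : Ω) ≠ 0) {S : Set (HeightOneSpectrum (𝓞 K))} (hS : S.Finite)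
    {Q : HeightOneSpectrum (𝓞 K) → Polynomial Ω} {ι : Type} (F : ι → IntermediateField K (AlgebraicClosure K))
    (hfin : ∀ i, FiniteDimensional K (F i))
    (hpair : ∀ g h : GK K, ∃ i, g ∈ (F i).fixingSubgroup ∧ h ∈ (F i).fixingSubgroup)
    (ρ : ∀ i, (F i).fixingSubgroup →* GL (Fin 2) Ω) (hρ : ∀ i, CorrespondsOn (F i).fixingSubgroup (ρ i) S Q) :
    ∃ R : GK K →* GL (Fin 2) Ω, BelongsTo R S Q ∧ ∀ i, Restricts R (F i).fixingSubgroup (ρ i) := by
  obtain ⟨R, h1, h3, h4, h5⟩ := Pool.Agent.X289.TF.nf_pairs (Or.inl h2) hS (fun i => (F i).fixingSubgroup)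
    (fun i => by
      have := hfin i
      exact IntermediateField.fixingSubgroup_isOpen (F i)) ρ (fun i => (hρ i).1) (fun i => (hρ i).2) hpair
  exact ⟨R, ⟨h1, h3, h5⟩, h4⟩

omit [NumberField K] in
/-- an element acts on a square root by a sign -/
theorem exists_sign (g : GK K) {α : AlgebraicClosure K} (hα : α ^ 2 ∈ (algebraMap K (AlgebraicClosure K)).range) :
    ∃ a : Fin 2, g α = (-1) ^ (a : ℕ) * α := by
  obtain ⟨c, hc⟩ := hα
  have h1 : (g α) ^ 2 = α ^ 2 := by rw [← map_pow, ← hc, AlgEquiv.commutes]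
  rcases sq_eq_sq_iff_eq_or_eq_neg.1 h1 with h | h
  · exact ⟨0, by rw [h]; simp⟩
  · exact ⟨1, by rw [h]; simp⟩

omit [NumberField K] in
theorem fix_adjoin {g : GK K} {δ : AlgebraicClosure K} (h : g δ = δ) :
    g ∈ (IntermediateField.adjoin K {δ}).fixingSubgroup := by
  have h1 : IntermediateField.adjoin K {δ} ≤ IntermediateField.fixedField (MulAction.stabilizer (GK K) δ) := by
    rw [IntermediateField.adjoin_simple_le_iff]
    intro x
    exact x.2
  exact (IntermediateField.le_iff_le _ _).1 h1 h

omit [NumberField K] in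
theorem fix_prod {g : GK K} {α β γ : AlgebraicClosure K} {a b c : Fin 2} (ha : g α = (-1) ^ (a : ℕ) * α)
    (hb : g β = (-1) ^ (b : ℕ) * β) (hc : g γ = (-1) ^ (c : ℕ) * γ) {i j l : Fin 2}
    (he : Even ((a : ℕ) * i + b * j + c * l)) :
    g (α ^ (i : ℕ) * β ^ (j : ℕ) * γ ^ (l : ℕ)) = α ^ (i : ℕ) * β ^ (j : ℕ) * γ ^ (l : ℕ) := by
  rw [map_mul, map_mul, map_pow, map_pow, map_pow, ha, hb, hc, mul_pow, mul_pow, mul_pow, ← pow_mul, ← pow_mul,
    ← pow_mul]
  have h1 : ((-1 : AlgebraicClosure K)) ^ ((a : ℕ) * i + b * j + c * l) = 1 := he.neg_one_pow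
  rw [pow_add, pow_add] at h1
  calc (-1) ^ ((a : ℕ) * i) * α ^ (i : ℕ) * ((-1) ^ ((b : ℕ) * j) * β ^ (j : ℕ)) *
        ((-1) ^ ((c : ℕ) * l) * γ ^ (l : ℕ))
      = ((-1) ^ ((a : ℕ) * i) * (-1) ^ ((b : ℕ) * j) * (-1) ^ ((c : ℕ) * l)) *
        (α ^ (i : ℕ) * β ^ (j : ℕ) * γ ^ (l : ℕ)) := by ring
    _ = _ := by rw [h1, one_mul]

theorem comb : ∀ a b c a' b' c' : Fin 2, ∃ i j l : Fin 2, (i, j, l) ≠ (0, 0, 0) ∧
    Even ((a : ℕ) * i + b * j + c * l) ∧ Even ((a' : ℕ) * i + b' * j + c' * l) := by
  decide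

/-- **Galois representations for `GL(2)` from seven quadratic base changes.** -/
theorem result (K : Type) [Field K] [NumberField K] (Ω : Type) [Field Ω] [IsAlgClosed Ω] [TopologicalSpace Ω]
    [IsTopologicalRing Ω] [T2Space Ω] (h2 : (2 : Ω) ≠ 0) (S : Set (HeightOneSpectrum (𝓞 K))) (hS : S.Finite)
    (Q : HeightOneSpectrum (𝓞 K) → Polynomial Ω) :
    (∀ (ι : Type) (F : ι → IntermediateField K (AlgebraicClosure K)), (∀ i, FiniteDimensional K (F i)) →
      (∀ g h : GK K, ∃ i, g ∈ (F i).fixingSubgroup ∧ h ∈ (F i).fixingSubgroup) →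
      ∀ ρ : ∀ i, (F i).fixingSubgroup →* GL (Fin 2) Ω, (∀ i, CorrespondsOn (F i).fixingSubgroup (ρ i) S Q) →
        ∃ R : GK K →* GL (Fin 2) Ω, BelongsTo R S Q ∧ ∀ i, Restricts R (F i).fixingSubgroup (ρ i)) ∧
    ∀ α β γ : AlgebraicClosure K, α ^ 2 ∈ (algebraMap K (AlgebraicClosure K)).range →
      β ^ 2 ∈ (algebraMap K (AlgebraicClosure K)).range → γ ^ 2 ∈ (algebraMap K (AlgebraicClosure K)).range →
      (∀ i j l : Fin 2, (i, j, l) ≠ (0, 0, 0) →
        ∃ ρ : (IntermediateField.adjoin K {α ^ (i : ℕ) * β ^ (j : ℕ) * γ ^ (l : ℕ)}).fixingSubgroup →* GL (Fin 2) Ω,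
          CorrespondsOn _ ρ S Q) →
      ∃ R : GK K →* GL (Fin 2) Ω, BelongsTo R S Q := by
  refine ⟨fun ι F hfin hpair ρ hρ => part1 h2 hS F hfin hpair ρ hρ, fun α β γ hα hβ hγ hρ => ?_⟩
  let J : Type := {p : Fin 2 × Fin 2 × Fin 2 // p ≠ (0, 0, 0)}
  let F : J → IntermediateField K (AlgebraicClosure K) := fun p =>
    IntermediateField.adjoin K {α ^ (p.1.1 : ℕ) * β ^ (p.1.2.1 : ℕ) * γ ^ (p.1.2.2 : ℕ)}
  have hρ' : ∀ p : J, ∃ ρ : (F p).fixingSubgroup →* GL (Fin 2) Ω, CorrespondsOn _ ρ S Q := fun p =>
    hρ p.1.1 p.1.2.1 p.1.2.2 p.2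
  choose R hR using hρ'
  obtain ⟨ρ, h1, -⟩ := part1 h2 hS F (fun p => by
    have : Algebra.IsAlgebraic K (AlgebraicClosure K) := inferInstance
    exact IntermediateField.adjoin.finiteDimensional (Algebra.IsIntegral.isIntegral _)) (fun g h => by
    obtain ⟨a, ha⟩ := exists_sign g hα
    obtain ⟨b, hb⟩ := exists_sign g hβ
    obtain ⟨c, hc⟩ := exists_sign g hγ
    obtain ⟨a', ha'⟩ := exists_sign h hα
    obtain ⟨b', hb'⟩ := exists_sign h hβ
    obtain ⟨c', hc'⟩ := exists_sign h hγ
    obtain ⟨i, j, l, hne, he, he'⟩ := comb a b c a' b' c'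
    refine ⟨⟨(i, j, l), hne⟩, ?_, ?_⟩
    · exact fix_adjoin (fix_prod ha hb hc he)
    · exact fix_adjoin (fix_prod ha' hb' hc' he')) R hR
  exact ⟨ρ, h1⟩

end Pool.Agent.Results.MP_976e2b_nt.SevenQuadraticFields
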